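import Pool.Agent.Helper98_CC.Stmts
import Pool.Agent.Helper44_WRA.Kill
import Pool.Agent.Helper13_WRA.Label
import Pool.Agent.Helper15_WRA.Vpow

/-!
CC, module EQB: labels of irreducible characters of `G wr C_ℓ` are determined on the base group.
-/

open scoped BigOperators

noncomputable section

namespace Pool.Agent.Helper98_CC.H81

open Pool.Agent.Helper51_AWC Pool.Agent.Helper79_WRA Pool.Agent.Helper98_CC
open Pool.Agent.Helper79_WRA.H44 (pw pw_zero pw_class pw_integral val_pw conv_eq)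

theorem isConj_s {ℓ : ℕ} {G : Type} [Group G] {x y : Gam ℓ G} (h : IsConj x y) : y.s = x.s := by
  obtain ⟨c, rfl⟩ := isConj_iff.1 h
  rw [Wreath.conj_s, mul_comm c.s x.s, mul_assoc, mul_inv_cancel, mul_one]

open Classical in
/-- the indicator of a class -/
def cls {Γ : Type} [Group Γ] (g : Γ) : Γ → ℂ := fun h => if IsConj g h then (1 : ℂ) else 0

theorem cls_conj {Γ : Type} [Group Γ] (g x y : Γ) : cls g (y * x * y⁻¹) = cls g x := by
  classical
  unfold cls
  exact H13.conj_indicator g x y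

theorem cls_int {Γ : Type} [Group Γ] (g x : Γ) : IsIntegral ℤ (cls g x) := by
  unfold cls
  split_ifs
  · exact isIntegral_one
  · exact isIntegral_zero

theorem pw_supp {ℓ : ℕ} [Fact ℓ.Prime] {G : Type} [Group G] [Finite G] [Fintype (Gam ℓ G)]
    (g : Gam ℓ G) (n : ℕ) (x : Gam ℓ G) (h : pw (cls g) n x ≠ 0) : x.s = g.s ^ n := by
  classical
  induction n generalizing x with
  | zero =>
    rw [pw_zero] at h
    have hx : x = 1 := by
      by_contra hne
      rw [if_neg hne] at h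
      exact h rfl
    rw [hx, pow_zero]
    rfl
  | succ n ih =>
    have h1 : pw (cls g) (n + 1) x = ∑ y, cls g y * pw (cls g) n (y⁻¹ * x) := conv_eq _ _ x
    rw [h1] at h
    obtain ⟨y, _, hy⟩ := Finset.exists_ne_zero_of_sum_ne_zero h
    have hy1 : cls g y ≠ 0 := left_ne_zero_of_mul hy
    have hy2 := ih _ (right_ne_zero_of_mul hy)
    have hc : IsConj g y := by
      by_contra hne
      apply hy1
      unfold cls
      rw [if_neg hne]
    have hs := isConj_s hc
    rw [Wreath.mul_s, Wreath.inv_s, hs, inv_mul_eq_iff_eq_mul] at hy2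
    rw [hy2, pow_succ']

theorem labF_pow {ℓ : ℕ} {M : Ideal (integralClosure ℤ ℂ)} {Γ : Type}
    [Group Γ] [Fintype Γ] {χ : Γ → ℂ} (hχ : χ ∈ Irr Γ) (g : Γ) :
    labF M χ g ^ ℓ = red M (val (pw (cls g) ℓ) χ) := by
  classical
  have h1 : labF M χ g = red M (val (cls g) χ) := by
    unfold labF
    rw [H13.omega_eq_val']
    rfl
  rw [h1, ← red_pow (H13.val_integral (cls_conj g) (cls_int g) hχ), val_pw hχ (cls_conj g)]

theorem red_val_eq {M : Ideal (integralClosure ℤ ℂ)} {Γ : Type} [Group Γ] [Finite Γ]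
    {χ₁ χ₂ F : Γ → ℂ} (h₁ : χ₁ ∈ Irr Γ) (h₂ : χ₂ ∈ Irr Γ) (hi : ∀ x, IsIntegral ℤ (F x))
    (hcl : ∀ x y, F (y * x * y⁻¹) = F x) (h : ∀ x, F x ≠ 0 → labF M χ₁ x = labF M χ₂ x) :
    red M (val F χ₁) = red M (val F χ₂) := by
  classical
  have := Fintype.ofFinite Γ
  have := Fintype.ofFinite (ConjClasses Γ)
  have e : ∀ {χ : Γ → ℂ}, χ ∈ Irr Γ → red M (val F χ) =
      ∑ C : ConjClasses Γ, red M (F (Quotient.out C)) * labF M χ (Quotient.out C) := by
    intro χ hχ
    rw [H13.val_class F χ hcl (irr_one_ne hχ)]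
    refine (red_sum Finset.univ (fun C : ConjClasses Γ => F (Quotient.out C) *
      omega (MonoidHom.id Γ) χ (Quotient.out C)) fun C _ =>
        (hi _).mul (omega_integral _ hχ _)).trans ?_
    refine Finset.sum_congr rfl fun C _ => ?_
    exact red_mul (hi _) (omega_integral _ hχ _)
  rw [e h₁, e h₂]
  refine Finset.sum_congr rfl fun C _ => ?_
  by_cases h0 : F (Quotient.out C) = 0
  · rw [h0, red_zero, zero_mul, zero_mul]
  · rw [h _ h0]

/-- EQB -/
theorem eqb : EqbStmt := by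
  intro ℓ hℓ M hM hM' G _ _ χ₁ h₁ χ₂ h₂ h
  classical
  have : NeZero ℓ := ⟨hℓ.out.ne_zero⟩
  have := Fintype.ofFinite (Gam ℓ G)
  have hch : CharP (FF M) ℓ := H15.charP_FF hM'
  have hexp : ExpChar (FF M) ℓ := ExpChar.prime hℓ.out
  have hdom : IsDomain (FF M) := Ideal.Quotient.isDomain M
  funext g
  have hfr : Function.Injective (frobenius (FF M) ℓ) := frobenius_inj (FF M) ℓ
  apply hfr
  rw [frobenius_def, frobenius_def, labF_pow h₁, labF_pow h₂]
  have hgs : g.s ^ ℓ = 1 := by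
    have h1 : Multiplicative.toAdd (g.s ^ ℓ) = Multiplicative.toAdd (1 : Cl ℓ) := by
      rw [toAdd_pow, toAdd_one, nsmul_eq_mul, ZMod.natCast_self, zero_mul]
    exact Multiplicative.toAdd.injective h1
  refine red_val_eq h₁ h₂ (pw_integral (cls_int g) ℓ) (pw_class (cls_conj g) ℓ) fun x hx => ?_
  have hs := pw_supp g ℓ _ hx
  rw [hgs] at hs
  have hb : x = Wreath.base x.f := Wreath.ext rfl hs
  rw [hb]
  exact h x.f

end Pool.Agent.Helper98_CC.H81
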