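import Pool.Agent.Helper98_CC.Stmts
import Pool.Agent.Helper79_WRA.Final

/-!
CC, module WCL: the alternating sum of the block of `G wr C_ℓ` covering the power of the block
of `χ`.
-/

open scoped BigOperators

noncomputable section

namespace Pool.Agent.Helper98_CC.H81

open Pool.Agent.Helper51_AWC Pool.Agent.Helper79_WRA Pool.Agent.Helper98_CC

/-! ### characters of abelian groups -/

open Classical in
/-- the number of irreducible characters of an abelian group -/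
theorem ncard_IrrS {K : Type} [Group K] [Finite K] (hK : ∀ x y : K, x * y = y * x)
    (U : Subgroup K) : (IrrS U).ncard = Nat.card U := by
  let cg : CommGroup U := { (inferInstance : Group U) with
    mul_comm := fun a b => Subtype.ext (hK a b) }
  have hroots : HasEnoughRootsOfUnity ℂ (Monoid.exponent U) := inferInstance
  have hcard : Nat.card (U →* ℂˣ) = Nat.card U :=
    CommGroup.card_monoidHom_of_hasEnoughRootsOfUnity U ℂ
  let F : (U →* ℂˣ) → (K → ℂ) := fun ψ g => if h : g ∈ U then (ψ ⟨g, h⟩ : ℂ) else 0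
  have hF1 : ∀ ψ (g : U), F ψ g = (ψ g : ℂ) := by
    intro ψ g
    simp only [F]
    rw [dif_pos g.2]
  have hF0 : ∀ ψ (g : K), g ∉ U → F ψ g = 0 := by
    intro ψ g hg
    simp only [F]
    rw [dif_neg hg]
  have hF : Function.Injective F := by
    intro ψ ψ' h
    ext g
    rw [← hF1, ← hF1, h]
  have hr : Set.range F = IrrS U := by
    ext a
    constructor
    · rintro ⟨ψ, rfl⟩
      refine ⟨hF0 ψ, ?_⟩
      have : (fun h : U => F ψ h) = fun h : U => (ψ h : ℂ) := funext fun h => hF1 ψ h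
      rw [this]
      exact linear_mem_Irr ψ
    · rintro ⟨h0, h1⟩
      obtain ⟨ψ, hψ⟩ := Pool.Agent.Helper79_WRA.H46.irr_comm (H := U)
        (fun x y => Subtype.ext (hK x y)) h1
      refine ⟨ψ, ?_⟩
      funext g
      by_cases hg : g ∈ U
      · have h2 := congrFun hψ ⟨g, hg⟩
        have h3 := hF1 ψ ⟨g, hg⟩
        exact h3.trans h2.symm
      · rw [hF0 ψ g hg, h0 g hg]
  rw [← hr, Set.ncard_range_of_injective hF]
  exact hcard

/-! ### the cyclic group -/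

section cl

open Classical

variable {ℓ : ℕ} [hℓ : Fact ℓ.Prime]

theorem neZero : NeZero ℓ := ⟨hℓ.out.ne_zero⟩

theorem card_cl : Nat.card (Cl ℓ) = ℓ := by
  have := neZero (ℓ := ℓ)
  show Nat.card (ZMod ℓ) = ℓ
  rw [Nat.card_eq_fintype_card, ZMod.card]

theorem cl_comm (x y : Cl ℓ) : x * y = y * x := mul_comm x y

theorem cl_sub (H : Subgroup (Cl ℓ)) : H = ⊥ ∨ H = ⊤ := by
  have : Fact (Nat.card (Cl ℓ)).Prime := ⟨by rw [card_cl]; exact hℓ.out⟩
  exact H.eq_bot_or_eq_top_of_prime_card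

theorem bot_ne_top : (⊥ : Subgroup (Cl ℓ)) ≠ ⊤ := by
  intro h
  have h1 : Nat.card (⊥ : Subgroup (Cl ℓ)) = Nat.card (⊤ : Subgroup (Cl ℓ)) := by rw [h]
  rw [Subgroup.card_bot, Subgroup.card_top, card_cl] at h1
  exact hℓ.out.one_lt.ne h1

theorem cl_pgroup (H : Subgroup (Cl ℓ)) : IsPGroup ℓ H := by
  have h : IsPGroup ℓ (Cl ℓ) := IsPGroup.of_card (n := 1) (by rw [card_cl, pow_one])
  exact h.to_subgroup H

theorem sum_chains (ℓ : ℕ) [hℓ : Fact ℓ.Prime] [Finite (Cl ℓ)] (f : Finset (Subgroup (Cl ℓ)) → ℤ) :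
    ∑ c ∈ chainsOn (psubIn ℓ (⊤ : Subgroup (Cl ℓ))) ⊥, f c = f {⊥} + f {⊥, ⊤} := by
  have hch : chainsOn (psubIn ℓ (⊤ : Subgroup (Cl ℓ))) ⊥ = {{⊥}, {⊥, ⊤}} := by
    ext c
    rw [mem_chainsOn, Finset.mem_insert, Finset.mem_singleton]
    constructor
    · rintro ⟨_, h2, _⟩
      by_cases h : (⊤ : Subgroup (Cl ℓ)) ∈ c
      · right
        ext D
        rw [Finset.mem_insert, Finset.mem_singleton]
        constructor
        · intro _
          exact cl_sub D
        · rintro (rfl | rfl)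
          · exact h2
          · exact h
      · left
        ext D
        rw [Finset.mem_singleton]
        constructor
        · intro hD
          rcases cl_sub D with rfl | rfl
          · rfl
          · exact absurd hD h
        · rintro rfl
          exact h2
    · intro h
      have hmem : ∀ D : Subgroup (Cl ℓ), D ∈ psubIn ℓ (⊤ : Subgroup (Cl ℓ)) := by
        intro D
        rw [mem_psubIn]
        exact ⟨le_top, cl_pgroup D⟩
      have hchain : ∀ d : Finset (Subgroup (Cl ℓ)),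
          IsChain (· ≤ ·) (d : Set (Subgroup (Cl ℓ))) := by
        intro d D _ E _ _
        rcases cl_sub D with rfl | rfl
        · exact Or.inl bot_le
        · exact Or.inr le_top
      refine ⟨fun D _ => hmem D, ?_, hchain c⟩
      rcases h with rfl | rfl
      · exact Finset.mem_singleton_self _
      · exact Finset.mem_insert_self _ _
  have hne : ({⊥} : Finset (Subgroup (Cl ℓ))) ≠ {⊥, ⊤} := by
    intro h
    have h1 : (⊤ : Subgroup (Cl ℓ)) ∈ ({⊥} : Finset (Subgroup (Cl ℓ))) := by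
      rw [h]
      exact Finset.mem_insert_of_mem (Finset.mem_singleton_self _)
    exact bot_ne_top (Finset.mem_singleton.1 h1).symm
  rw [hch, Finset.sum_pair hne]

theorem card_pair : ({⊥, ⊤} : Finset (Subgroup (Cl ℓ))).card = 2 :=
  Finset.card_pair bot_ne_top

theorem topP_bot : topP ({⊥} : Finset (Subgroup (Cl ℓ))) = ⊥ := by
  unfold topP
  simp

theorem topP_top : topP ({⊥, ⊤} : Finset (Subgroup (Cl ℓ))) = ⊤ := by
  unfold topP
  exact le_antisymm le_top (le_iSup₂_of_le (⊤ : Subgroup (Cl ℓ))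
    (Finset.mem_insert_of_mem (Finset.mem_singleton_self _)) le_rfl)

theorem card_Dl_bot : Nat.card (Dl ({⊥} : Finset (Subgroup (Cl ℓ))) (ZMod ℓ)) = ℓ := by
  have h : Function.Bijective (qq ({⊥} : Finset (Subgroup (Cl ℓ))) : ZMod ℓ → _) := by
    refine ⟨?_, qq_surjective _⟩
    intro i j hij
    obtain ⟨p, hp, h⟩ := qq_eq_iff.1 hij
    rw [topP_bot, Subgroup.mem_bot] at hp
    rw [hp, one_smul] at h
    exact h
  have := neZero (ℓ := ℓ)
  rw [← Nat.card_eq_of_bijective _ h, Nat.card_eq_fintype_card, ZMod.card]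

theorem qq_top (i j : ZMod ℓ) : (qq ({⊥, ⊤} : Finset (Subgroup (Cl ℓ))) i : Dl _ (ZMod ℓ)) =
    qq ({⊥, ⊤} : Finset (Subgroup (Cl ℓ))) j := by
  rw [qq_eq_iff]
  refine ⟨Multiplicative.ofAdd (j - i), ?_, ?_⟩
  · rw [topP_top]
    exact Subgroup.mem_top _
  · rw [cl_smul, toAdd_ofAdd, sub_add_cancel]

theorem card_Dl_top : Nat.card (Dl ({⊥, ⊤} : Finset (Subgroup (Cl ℓ))) (ZMod ℓ)) = 1 := by
  rw [Nat.card_eq_one_iff_unique]
  refine ⟨⟨fun a b => ?_⟩, ⟨qq _ 0⟩⟩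
  obtain ⟨i, rfl⟩ := qq_surjective _ a
  obtain ⟨j, rfl⟩ := qq_surjective _ b
  exact qq_top i j

theorem stab_cl (c : Finset (Subgroup (Cl ℓ))) : stab c = ⊤ := by
  rw [eq_top_iff]
  intro g _
  rw [mem_stab]
  intro D _
  ext x
  rw [mem_conjS, cl_comm g⁻¹ x, mul_assoc, inv_mul_cancel, mul_one]

theorem faithful : FaithfulSMul (Cl ℓ) (ZMod ℓ) := by
  constructor
  intro a b h
  have h1 := h 0
  rw [cl_smul, cl_smul, add_zero, add_zero] at h1
  exact Multiplicative.toAdd.injective h1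

theorem nontrivial_of_large {M : Ideal (integralClosure ℤ ℂ)} {G : Type} [Group G] [Finite G]
    {χ : G → ℂ} (h : LargeDefect ℓ M χ) : Nontrivial G := by
  by_contra hn
  rw [not_nontrivial_iff_subsingleton] at hn
  obtain ⟨ψ, _, _, n, _, hd⟩ := h
  have h1 : Nat.card G = 1 := Nat.card_eq_one_iff_unique.2 ⟨hn, ⟨1⟩⟩
  rw [h1, mul_assoc] at hd
  exact hℓ.out.one_lt.ne' (Nat.dvd_one.1 (dvd_of_mul_right_dvd hd))

variable {G : Type} [Group G]

theorem conjS_bot {Γ : Type} [Group Γ] (g : Γ) : conjS g (⊥ : Subgroup Γ) = ⊥ := by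
  unfold conjS
  rw [Subgroup.map_bot]

theorem stab_bot {Γ : Type} [Group Γ] : stab ({⊥} : Finset (Subgroup Γ)) = ⊤ := by
  rw [eq_top_iff]
  intro g _
  rw [mem_stab]
  intro D hD
  rw [Finset.mem_singleton.1 hD, conjS_bot]

theorem cent_bot {Γ : Type} [Group Γ] (N : Subgroup Γ) :
    cent N ({⊥} : Finset (Subgroup Γ)) = N := by
  unfold cent
  simp only [Finset.mem_singleton, iInf_iInf_eq_left]
  apply le_antisymm inf_le_left
  refine le_inf le_rfl ?_
  intro x _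
  rw [Subgroup.mem_centralizer_iff]
  intro y hy
  rw [Subgroup.mem_bot.1 hy, one_mul, mul_one]

theorem topc_bot : topc ({⊥} : Finset (Subgroup (Cl ℓ))) G (ZMod ℓ) = {⊥} := by
  unfold topc
  rw [Finset.image_singleton, Subgroup.map_bot]

theorem dia_inj : Function.Injective (dia ℓ G) := by
  intro x y h
  have h1 := congrArg Wreath.f h
  have h2 := congrArg Wreath.s h
  apply Wreath.ext
  · funext u
    exact congrFun h1 0
  · exact h2

theorem mem_dia_range {x : Gam ℓ G} : x ∈ (dia ℓ G).range ↔ ∀ i, x.f i = x.f 0 := by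
  constructor
  · rintro ⟨y, rfl⟩ i
    rfl
  · intro h
    exact ⟨⟨fun _ => x.f 0, x.s⟩, Wreath.ext (funext fun i => (h i).symm) rfl⟩

theorem mem_dia_base_range {x : Gam ℓ G} :
    x ∈ ((dia ℓ G).comp (Wreath.base : (Unit → G) →* Wreath G Unit (Cl ℓ))).range ↔
      x.s = 1 ∧ ∀ i, x.f i = x.f 0 := by
  constructor
  · rintro ⟨y, rfl⟩
    exact ⟨rfl, fun i => rfl⟩
  · rintro ⟨h1, h2⟩
    exact ⟨fun _ => x.f 0, Wreath.ext (funext fun i => (h2 i).symm) h1.symm⟩

theorem mem_iota_range {x : Gam ℓ G} :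
    x ∈ (iota ({⊥, ⊤} : Finset (Subgroup (Cl ℓ))) G (ZMod ℓ)).range ↔ ∀ i, x.f i = x.f 0 := by
  constructor
  · rintro ⟨y, rfl⟩ i
    rw [iota_apply]
    show y.f (qq _ i) = y.f (qq _ 0)
    rw [qq_top i 0]
  · intro h
    refine ⟨⟨fun _ => x.f 0, ⟨x.s, by rw [stab_cl]; exact Subgroup.mem_top _⟩⟩, ?_⟩
    rw [iota_apply]
    exact Wreath.ext (funext fun i => (h i).symm) rfl

theorem mem_iota_base_range {x : Gam ℓ G} :
    x ∈ ((iota ({⊥, ⊤} : Finset (Subgroup (Cl ℓ))) G (ZMod ℓ)).comp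
      (Wreath.base : (Dl _ (ZMod ℓ) → G) →* Wreath G _ (stab _))).range ↔
      x.s = 1 ∧ ∀ i, x.f i = x.f 0 := by
  constructor
  · rintro ⟨y, rfl⟩
    refine ⟨rfl, fun i => ?_⟩
    rw [MonoidHom.comp_apply, iota_apply]
    show y (qq _ i) = y (qq _ 0)
    rw [qq_top i 0]
  · rintro ⟨h1, h2⟩
    refine ⟨fun _ => x.f 0, ?_⟩
    rw [MonoidHom.comp_apply, iota_apply]
    exact Wreath.ext (funext fun i => (h2 i).symm) h1.symm

theorem topSt_unit (v : Finset (Unit → Subgroup G)) (α : Unit → G → ℂ) :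
    topSt (Cl ℓ) v α = ⊤ := by
  rw [eq_top_iff]
  intro h _
  rw [mem_topSt]
  intro j
  refine ⟨1, ?_, ?_⟩
  · intro R _
    rw [conjS_one]
  · intro y
    rw [one_mul, inv_one, mul_one]

/-- the number of elements of a subgroup of the cyclic group, squared -/
theorem sq_card (U : Subgroup (Cl ℓ)) :
    (Nat.card U : ℤ) * (Nat.card U : ℤ) = 1 + ((ℓ : ℤ) ^ 2 - 1) * (if ⊤ ≤ U then 1 else 0) := by
  rcases cl_sub U with rfl | rfl
  · have h : ¬ (⊤ : Subgroup (Cl ℓ)) ≤ ⊥ := fun h => bot_ne_top (le_antisymm bot_le h)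
    rw [if_neg h, Subgroup.card_bot]
    simp
  · rw [if_pos le_rfl, Subgroup.card_top, card_cl]
    ring

theorem ncard_good {K : Type} {S : Set (K → ℂ)} {P : (K → ℂ) → Prop} {Q : Prop} [Decidable Q]
    (h : ∀ lam ∈ S, (P lam ↔ Q)) :
    {lam | lam ∈ S ∧ P lam}.ncard = if Q then S.ncard else 0 := by
  by_cases hQ : Q
  · rw [if_pos hQ]
    congr 1
    ext lam
    exact ⟨fun h' => h'.1, fun h' => ⟨h', (h lam h').2 hQ⟩⟩
  · rw [if_neg hQ]
    have : {lam | lam ∈ S ∧ P lam} = ∅ := by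
      ext lam
      exact ⟨fun h' => hQ ((h lam h'.1).1 h'.2), fun h' => h'.elim⟩
    rw [this, Set.ncard_empty]

theorem sum_ite_filter {ι : Type} (s : Finset ι) (P : ι → Prop) [DecidablePred P] (f : ι → ℤ) :
    ∑ a ∈ s, f a * (if P a then 1 else 0) = ∑ a ∈ s.filter P, f a := by
  rw [Finset.sum_filter]
  apply Finset.sum_congr rfl
  intro a _
  split_ifs
  · rw [mul_one]
  · rw [mul_zero]

variable [Finite G]

/-- the inner sum for the trivial chain of the top group -/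
theorem tsum_bot (hbp : BoxpStmt) (hbt : BoxtStmt) (hga : GoodaStmt)
    (M : Ideal (integralClosure ℤ ℂ)) [M.IsMaximal] (hM : (ℓ : integralClosure ℤ ℂ) ∈ M)
    (hG : opCore ℓ G = ⊥) {χ : G → ℂ} (hχ : χ ∈ Irr G) (hLD : LargeDefect ℓ M χ)
    {χ' : Gam ℓ G → ℂ} (hχ' : Over ℓ χ χ') {s : ℤ}
    (hs : asum ℓ M (labF M χ) = (Nat.card G : ℤ) * s) :
    tsum ℓ (Wreath.base : (ZMod ℓ → G) →* Gam ℓ G).range (wt M χ') {⊥} =
      (Nat.card G : ℤ) ^ ℓ * (s ^ ℓ + ((ℓ : ℤ) ^ 2 - 1) * s) := by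
  have hGne : (Nat.card G : ℤ) ≠ 0 := by exact_mod_cast Nat.card_pos.ne'
  have hcardZ : Fintype.card (ZMod ℓ) = ℓ := ZMod.card ℓ
  rw [inner_sum Pool.Agent.Helper79_WRA.H75.trans Pool.Agent.Helper79_WRA.H75.box
    (Pool.Agent.Helper79_WRA.H13.count extAll Pool.Agent.Helper79_WRA.H44.cliff) ℓ M hG χ'
    (MonoidHom.id (Gam ℓ G)) (fun x y h => h) {⊥} (by
      rw [stab_bot]
      exact MonoidHom.range_eq_top.2 (fun x => ⟨x, rfl⟩)) (by
      rw [cent_bot, MonoidHom.id_comp])]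
  have hterm : ∀ v ∈ chainsOn (boxes ℓ G (ZMod ℓ)) (fun _ => ⊥),
      ∑ α ∈ charsOf v, (∏ j, (Nat.card (colStab v j) : ℤ)) *
        (Nat.card (topSt (Cl ℓ) v α) : ℤ) *
        (({lam | lam ∈ IrrS (topSt (Cl ℓ) v α) ∧ Good M (clas (MonoidHom.id (Gam ℓ G)))
          (fun g => omega (MonoidHom.id _) χ' g) (eta v α lam)}.ncard : ℕ) : ℤ) =
      ∑ α ∈ (charsOf v).filter (fun w => ∀ j, labF M (w j) = labF M χ),
        ∏ j, (Nat.card (colStab v j) : ℤ) + ((ℓ : ℤ) ^ 2 - 1) *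
      ∑ α ∈ (charsOf v).filter (fun w => ⊤ ≤ topSt (Cl ℓ) v w ∧ ∀ j, labF M (w j) = labF M χ),
        ∏ j, (Nat.card (colStab v j) : ℤ) := by
    intro v hv
    rw [← sum_ite_filter, ← sum_ite_filter, Finset.mul_sum, ← Finset.sum_add_distrib]
    apply Finset.sum_congr rfl
    intro α hα
    have hα' := mem_charsOf.1 hα
    have h1 := ncard_good (S := IrrS (topSt (Cl ℓ) v α))
      (P := fun lam => Good M (clas (MonoidHom.id (Gam ℓ G)))
          (fun g => omega (MonoidHom.id _) χ' g) (eta v α lam))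
      (Q := ∀ j, labF M (α j) = labF M χ)
      (fun lam hlam => hga ℓ M hM G hG χ hχ hLD χ' hχ' v hv α hα' lam hlam)
    rw [h1, ncard_IrrS cl_comm]
    by_cases hQ : ∀ j, labF M (α j) = labF M χ
    · rw [if_pos hQ, if_pos hQ, mul_assoc, sq_card]
      by_cases hT : ⊤ ≤ topSt (Cl ℓ) v α
      · rw [if_pos hT, if_pos ⟨hT, hQ⟩]
        ring
      · rw [if_neg hT, if_neg (fun h => hT h.1)]
        ring
    · rw [if_neg hQ, if_neg hQ, if_neg (fun h => hQ h.2)]
      push_cast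
      ring
  have hA := hbp ℓ M G (ZMod ℓ) (fun _ => labF M χ) hG
  have hB := hbt ℓ M G (ZMod ℓ) (Cl ℓ) 0 (labF M χ)
    (fun j => ⟨Multiplicative.ofAdd j, by rw [cl_smul, toAdd_ofAdd, add_zero]⟩) hG
    (fun d hd a ha h => (Pool.Agent.Helper79_WRA.H83.pos ℓ M hM G hG).2.1 d hd a ha χ hχ hLD h)
  rw [Finset.prod_const, Finset.card_univ, hcardZ, hs] at hA
  rw [hcardZ, hs] at hB
  have hB' := mul_left_cancel₀ hGne (hB.trans (by ring :
    (Nat.card G : ℤ) ^ ℓ * ((Nat.card G : ℤ) * s) =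
      (Nat.card G : ℤ) * ((Nat.card G : ℤ) ^ ℓ * s)))
  rw [Finset.sum_congr rfl (fun v hv => by rw [hterm v hv])]
  simp_rw [mul_add]
  rw [Finset.sum_add_distrib, hA]
  have h3 : ∀ v : Finset (ZMod ℓ → Subgroup G), (-1 : ℤ) ^ (v.card + 1) * (((ℓ : ℤ) ^ 2 - 1) *
      ∑ α ∈ (charsOf v).filter (fun w => ⊤ ≤ topSt (Cl ℓ) v w ∧ ∀ j, labF M (w j) = labF M χ),
        ∏ j, (Nat.card (colStab v j) : ℤ)) = ((ℓ : ℤ) ^ 2 - 1) * ((-1 : ℤ) ^ (v.card + 1) *
      ∑ α ∈ (charsOf v).filter (fun w => ⊤ ≤ topSt (Cl ℓ) v w ∧ ∀ j, labF M (w j) = labF M χ),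
        ∏ j, (Nat.card (colStab v j) : ℤ)) := by
    intro v
    ring
  simp_rw [h3]
  rw [← Finset.mul_sum, hB', mul_pow]
  ring

/-- the inner sum for the chain containing the whole of the top group -/
theorem tsum_top (hbp : BoxpStmt) (hgb : GoodbStmt)
    (M : Ideal (integralClosure ℤ ℂ)) [M.IsMaximal] (hM : (ℓ : integralClosure ℤ ℂ) ∈ M)
    (hG : opCore ℓ G = ⊥) {χ : G → ℂ} (hχ : χ ∈ Irr G) (hLD : LargeDefect ℓ M χ)
    {χ' : Gam ℓ G → ℂ} (hχ' : Over ℓ χ χ') {s' : ℤ}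
    (hs : asum ℓ M (fun g => labF M χ g ^ ℓ) = (Nat.card G : ℤ) * s') :
    tsum ℓ (Wreath.base : (ZMod ℓ → G) →* Gam ℓ G).range (wt M χ')
      (topc ({⊥, ⊤} : Finset (Subgroup (Cl ℓ))) G (ZMod ℓ)) =
      (Nat.card G : ℤ) * ((ℓ : ℤ) ^ 2 * s') := by
  obtain ⟨-, -, -, -, -, hrange, hcent, -, -⟩ := Pool.Agent.Helper79_WRA.H36.lambda2 ℓ G (ZMod ℓ)
    (Cl ℓ) ({⊥, ⊤} : Finset (Subgroup (Cl ℓ))) (fun D _ => cl_pgroup D)
    ⟨_, Finset.mem_insert_self _ _⟩ (by
      intro D _ E _ _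
      rcases cl_sub D with rfl | rfl
      · exact Or.inl bot_le
      · exact Or.inr le_top)
  rw [inner_sum Pool.Agent.Helper79_WRA.H75.trans Pool.Agent.Helper79_WRA.H75.box
    (Pool.Agent.Helper79_WRA.H13.count extAll Pool.Agent.Helper79_WRA.H44.cliff) ℓ M hG χ'
    (dia ℓ G) dia_inj _ (by
      rw [← hrange]
      ext x
      rw [mem_dia_range, mem_iota_range]) (by
      rw [hcent]
      ext x
      rw [mem_dia_base_range, mem_iota_base_range])]
  have hterm : ∀ v ∈ chainsOn (boxes ℓ G Unit) (fun _ => ⊥),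
      ∑ α ∈ charsOf v, (∏ j, (Nat.card (colStab v j) : ℤ)) *
        (Nat.card (topSt (Cl ℓ) v α) : ℤ) *
        (({lam | lam ∈ IrrS (topSt (Cl ℓ) v α) ∧ Good M (clas (dia ℓ G))
          (fun g => omega (MonoidHom.id _) χ' g) (eta v α lam)}.ncard : ℕ) : ℤ) =
      (ℓ : ℤ) ^ 2 *
      ∑ α ∈ (charsOf v).filter (fun w => ∀ j, labF M (w j) = fun g => labF M χ g ^ ℓ),
        ∏ j, (Nat.card (colStab v j) : ℤ) := by
    intro v hv
    rw [← sum_ite_filter, Finset.mul_sum]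
    apply Finset.sum_congr rfl
    intro α hα
    have hα' := mem_charsOf.1 hα
    have h1 := ncard_good (S := IrrS (topSt (Cl ℓ) v α))
      (P := fun lam => Good M (clas (dia ℓ G))
          (fun g => omega (MonoidHom.id _) χ' g) (eta v α lam))
      (Q := ∀ j, labF M (α j) = fun g => labF M χ g ^ ℓ)
      (fun lam hlam => (hgb ℓ M hM G hG χ hχ hLD χ' hχ' v hv α hα' lam hlam).trans
        ⟨fun h j => funext h, fun h g => congrFun (h ()) g⟩)
    rw [h1, ncard_IrrS cl_comm, topSt_unit, Subgroup.card_top, card_cl]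
    by_cases hQ : ∀ j, labF M (α j) = fun g => labF M χ g ^ ℓ
    · rw [if_pos hQ, if_pos hQ]
      ring
    · rw [if_neg hQ, if_neg hQ]
      push_cast
      ring
  have hA := hbp ℓ M G Unit (fun _ => fun g => labF M χ g ^ ℓ) hG
  rw [Finset.prod_const, Finset.card_univ, Fintype.card_unit, hs, pow_one] at hA
  rw [Finset.sum_congr rfl (fun v hv => by rw [hterm v hv])]
  have h3 : ∀ v : Finset (Unit → Subgroup G), (-1 : ℤ) ^ (v.card + 1) * ((ℓ : ℤ) ^ 2 *
      ∑ α ∈ (charsOf v).filter (fun w => ∀ j, labF M (w j) = fun g => labF M χ g ^ ℓ),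
        ∏ j, (Nat.card (colStab v j) : ℤ)) = (ℓ : ℤ) ^ 2 * ((-1 : ℤ) ^ (v.card + 1) *
      ∑ α ∈ (charsOf v).filter (fun w => ∀ j, labF M (w j) = fun g => labF M χ g ^ ℓ),
        ∏ j, (Nat.card (colStab v j) : ℤ)) := by
    intro v
    ring
  simp_rw [h3]
  rw [← Finset.mul_sum, hA]
  ring

/-- WCL: the alternating sum of the block of `G wr C_ℓ` covering the power of the block of
`χ`. -/
theorem wcl (hbp : BoxpStmt) (hbt : BoxtStmt) (hga : GoodaStmt) (hgb : GoodbStmt) :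
    WclStmt := by
  intro ℓ hℓ M hMm hM G _ _ hG χ hχ hLD χ' hχ' s s' hs hs'
  have : Nontrivial G := nontrivial_of_large hLD
  have : FaithfulSMul (Cl ℓ) (ZMod ℓ) := faithful
  have hΓ : opCore ℓ (Gam ℓ G) = ⊥ :=
    Pool.Agent.Helper79_WRA.H45.opCore_wreath ℓ G (ZMod ℓ) (Cl ℓ) inferInstance hG
  have hGne : (Nat.card G : ℤ) ^ ℓ ≠ 0 := by
    apply pow_ne_zero
    exact_mod_cast Nat.card_pos.ne'
  have hN : (Wreath.base : (ZMod ℓ → G) →* Gam ℓ G).range.Normal := by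
    refine ⟨?_⟩
    intro x hx g
    rw [Wreath.mem_base_range] at hx ⊢
    rw [Wreath.conj_s, hx, mul_one, mul_inv_cancel]
  have hZ : Nat.card (ZMod ℓ) = ℓ := card_cl
  set r : Finset (Subgroup (Cl ℓ)) → ℤ := fun c =>
    if c = {⊥} then s ^ ℓ + ((ℓ : ℤ) ^ 2 - 1) * s else (ℓ : ℤ) ^ 2 * s' with hr
  have hne : ({⊥, ⊤} : Finset (Subgroup (Cl ℓ))) ≠ {⊥} := by
    intro h
    have h1 : (⊤ : Subgroup (Cl ℓ)) ∈ ({⊥} : Finset (Subgroup (Cl ℓ))) := by
      rw [← h]
      exact Finset.mem_insert_of_mem (Finset.mem_singleton_self _)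
    exact bot_ne_top (Finset.mem_singleton.1 h1).symm
  have hr1 : r {⊥} = s ^ ℓ + ((ℓ : ℤ) ^ 2 - 1) * s := if_pos rfl
  have hr2 : r {⊥, ⊤} = (ℓ : ℤ) ^ 2 * s' := if_neg hne
  have h1 : (Nat.card (Gam ℓ G) : ℤ) * altSum ℓ M χ' = (Nat.card G : ℤ) ^ ℓ *
      ∑ c ∈ chainsOn (psubIn ℓ (⊤ : Subgroup (Cl ℓ))) ⊥, (-1) ^ (c.card + 1) * r c := by
    rw [card_mul_altSum, hΓ]
    have hw : ∀ d : Finset (Subgroup (Gam ℓ G)), (weight M χ' d : ℤ) = wt M χ' (stab d) := by
      intro d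
      simp only [weight, wt]
      push_cast
      rfl
    simp_rw [hw]
    rw [Pool.Agent.Helper79_WRA.H91.chainRed ℓ (Gam ℓ G) _ hN hΓ (wt M χ')]
    have h2 := sumcAll ℓ G (ZMod ℓ) (Cl ℓ) (wt M χ') (wt_conj M χ') hΓ r
    rw [hZ] at h2
    apply h2
    intro c hc
    have hc' : c = {⊥} ∨ c = {⊥, ⊤} := by
      obtain ⟨_, h2, _⟩ := mem_chainsOn.1 hc
      by_cases h : (⊤ : Subgroup (Cl ℓ)) ∈ c
      · right
        ext D
        rw [Finset.mem_insert, Finset.mem_singleton]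
        constructor
        · intro _
          exact cl_sub D
        · rintro (rfl | rfl)
          · exact h2
          · exact h
      · left
        ext D
        rw [Finset.mem_singleton]
        constructor
        · intro hD
          rcases cl_sub D with rfl | rfl
          · rfl
          · exact absurd hD h
        · rintro rfl
          exact h2
    rcases hc' with rfl | rfl
    · rw [topc_bot, card_Dl_bot, tsum_bot hbp hbt hga M hM hG hχ hLD hχ' hs, hr1]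
    · rw [card_Dl_top, tsum_top hbp hgb M hM hG hχ hLD hχ' hs', pow_one, hr2]
  rw [sum_chains ℓ, card_pair, Finset.card_singleton, hr1, hr2, card_wreath, hZ, card_cl] at h1
  apply mul_left_cancel₀ hGne
  push_cast at h1
  calc (Nat.card G : ℤ) ^ ℓ * ((ℓ : ℤ) * altSum ℓ M χ')
      = (Nat.card G : ℤ) ^ ℓ * (ℓ : ℤ) * altSum ℓ M χ' := by ring
    _ = _ := by rw [h1]; ring

end cl

end Pool.Agent.Helper98_CC.H81
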